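import Mathlib

set_option autoImplicit false

/-!
Initial segments of finite weighted blocks and the Erdős–Ulam ideals.
-/

namespace Pool.Agent.Helper246.TDM

open Filter Topology

/-- The mass of `D` in the block `I n` tends to zero. -/
def Negl (I : ℕ → Finset ℕ) (w : ℕ → ℝ) (D : Set ℕ) : Prop :=
  Tendsto (fun n => ∑ k ∈ I n, D.indicator w k) atTop (𝓝 0)

/-- The union of the initial segments of the blocks `I n` of mass at most `a n`. -/
def Init (I : ℕ → Finset ℕ) (w : ℕ → ℝ) (a : ℕ → ℝ) : Set ℕ :=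
  {k | ∃ n, k ∈ I n ∧ ∑ j ∈ I n with j ≤ k, w j ≤ a n}

theorem mass_le (F : Finset ℕ) (w : ℕ → ℝ) (h0 : ∀ k, 0 ≤ w k) (α β δ : ℝ) (hδ : 0 ≤ δ)
    (hw : ∀ k ∈ F, w k ≤ δ) :
    ∑ k ∈ F with (α < ∑ j ∈ F with j ≤ k, w j) ∧ (∑ j ∈ F with j ≤ k, w j) ≤ β, w k
      ≤ |β - α| + δ := by
  classical
  set K := F.filter (fun k => (α < ∑ j ∈ F with j ≤ k, w j) ∧ (∑ j ∈ F with j ≤ k, w j) ≤ β)
    with hK
  rcases K.eq_empty_or_nonempty with h | h
  · rw [h, Finset.sum_empty]
    positivity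
  · have hmin := K.min'_mem h
    have hmax := K.max'_mem h
    set p := K.min' h with hp
    set q := K.max' h with hq
    have hp' := (Finset.mem_filter.1 hmin)
    have hq' := (Finset.mem_filter.1 hmax)
    have e1 : ∑ j ∈ F with j ≤ p, w j = ∑ j ∈ F with j < p, w j + w p := by
      have : F.filter (fun j => j ≤ p) = insert p (F.filter (fun j => j < p)) := by
        ext j
        simp only [Finset.mem_filter, Finset.mem_insert]
        constructor
        · rintro ⟨h1, h2⟩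
          rcases h2.lt_or_eq with h3 | h3
          · exact Or.inr ⟨h1, h3⟩
          · exact Or.inl h3
        · rintro (h1 | ⟨h1, h2⟩)
          · subst h1
            exact ⟨hp'.1, le_rfl⟩
          · exact ⟨h1, h2.le⟩
      rw [this, Finset.sum_insert (by simp), add_comm]
    have e2 : ∑ k ∈ K, w k + ∑ j ∈ F with j < p, w j ≤ ∑ j ∈ F with j ≤ q, w j := by
      have hdis : Disjoint K (F.filter (fun j => j < p)) := by
        rw [Finset.disjoint_left]
        intro j hj hj'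
        have h1 := K.min'_le j hj
        have h2 := (Finset.mem_filter.1 hj').2
        omega
      rw [← Finset.sum_union hdis]
      refine Finset.sum_le_sum_of_subset_of_nonneg ?_ fun k _ _ => h0 k
      intro j hj
      rcases Finset.mem_union.1 hj with h1 | h1
      · exact Finset.mem_filter.2 ⟨(Finset.mem_filter.1 h1).1, K.le_max' j h1⟩
      · have h2 := Finset.mem_filter.1 h1
        have h3 := K.min'_le q hmax
        exact Finset.mem_filter.2 ⟨h2.1, by omega⟩
    have h5 := hp'.2.1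
    have h6 := hq'.2.2
    have h7 := hw p hp'.1
    have h8 := le_abs_self (β - α)
    linarith

theorem indicator_sum (F : Finset ℕ) (w : ℕ → ℝ) (D : Set ℕ) [DecidablePred (· ∈ D)] :
    ∑ k ∈ F, D.indicator w k = ∑ k ∈ F with k ∈ D, w k := by
  rw [Finset.sum_filter]
  refine Finset.sum_congr rfl fun k _ => ?_
  rw [Set.indicator_apply]

theorem eventually_atoms {I : ℕ → Finset ℕ} {w : ℕ → ℝ}
    (hd : ∀ m n, m ≠ n → Disjoint (I m) (I n)) (hw : Tendsto w atTop (𝓝 0)) {ε : ℝ} (hε : 0 < ε) :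
    ∀ᶠ n in atTop, ∀ k ∈ I n, w k ≤ ε := by
  obtain ⟨K, hK⟩ := eventually_atTop.1 (hw.eventually (gt_mem_nhds hε))
  have hfin : {n | ∃ k, k < K ∧ k ∈ I n}.Finite := by
    have : {n | ∃ k, k < K ∧ k ∈ I n} ⊆ ⋃ k ∈ Finset.range K, {n | k ∈ I n} := by
      rintro n ⟨k, h1, h2⟩
      simp only [Set.mem_iUnion]
      exact ⟨k, Finset.mem_range.2 h1, h2⟩
    refine Set.Finite.subset (Set.Finite.biUnion (Finset.finite_toSet _) fun k _ => ?_) this
    refine Set.Subsingleton.finite fun m hm n hn => ?_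
    by_contra hne
    exact Finset.disjoint_left.1 (hd m n hne) hm hn
  obtain ⟨N, hN⟩ := hfin.bddAbove
  filter_upwards [eventually_gt_atTop N] with n hn k hk
  by_contra hlt
  have h1 : ¬ K ≤ k := fun h => hlt (hK k h).le
  have := hN ⟨k, by omega, hk⟩
  omega

theorem negl_mono {I : ℕ → Finset ℕ} {w : ℕ → ℝ} (h0 : ∀ k, 0 ≤ w k) {D E : Set ℕ}
    (h : Negl I w E) (hDE : D ⊆ E) : Negl I w D := by
  refine squeeze_zero (fun n => Finset.sum_nonneg fun k _ => Set.indicator_nonneg (fun _ _ => h0 _) _)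
    (fun n => Finset.sum_le_sum fun k _ => ?_) h
  exact Set.indicator_le_indicator_of_subset hDE h0 k

/-- Initial segments for asymptotically equal sequences differ by a negligible set. -/
theorem negl_diff {I : ℕ → Finset ℕ} {w : ℕ → ℝ}
    (hd : ∀ m n, m ≠ n → Disjoint (I m) (I n)) (h0 : ∀ k, 0 ≤ w k) (hw : Tendsto w atTop (𝓝 0))
    {a b : ℕ → ℝ} (hab : Tendsto (fun n => a n - b n) atTop (𝓝 0)) :
    Negl I w (Init I w a \ Init I w b) := by
  classical
  rw [Negl, Metric.tendsto_atTop]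
  intro ε hε
  have h1 := eventually_atoms hd hw (show 0 < ε / 3 by positivity)
  have h2 := (Metric.tendsto_atTop.1 hab) (ε / 3) (by positivity)
  obtain ⟨N1, hN1⟩ := eventually_atTop.1 h1
  obtain ⟨N2, hN2⟩ := h2
  refine ⟨max N1 N2, fun n hn => ?_⟩
  have h3 := hN1 n (le_of_max_le_left hn)
  have h4 := hN2 n (le_of_max_le_right hn)
  rw [Real.dist_eq, sub_zero] at h4
  have h5 : ∑ k ∈ I n, (Init I w a \ Init I w b).indicator w k ≤
      ∑ k ∈ I n with (b n < ∑ j ∈ I n with j ≤ k, w j) ∧ (∑ j ∈ I n with j ≤ k, w j) ≤ a n, w k := by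
    rw [indicator_sum]
    refine Finset.sum_le_sum_of_subset_of_nonneg ?_ fun k _ _ => h0 k
    intro k hk
    obtain ⟨hk1, hk2, hk3⟩ := Finset.mem_filter.1 hk
    refine Finset.mem_filter.2 ⟨hk1, ?_, ?_⟩
    · by_contra hcon
      exact hk3 ⟨n, hk1, not_lt.1 hcon⟩
    · obtain ⟨m, hm1, hm2⟩ := hk2
      have : m = n := by
        by_contra hne
        exact Finset.disjoint_left.1 (hd m n hne) hm1 hk1
      subst this
      exact hm2
  have h6 := mass_le (I n) w h0 (b n) (a n) (ε / 3) (by positivity) h3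
  have h7 : 0 ≤ ∑ k ∈ I n, (Init I w a \ Init I w b).indicator w k :=
    Finset.sum_nonneg fun k _ => Set.indicator_nonneg (fun _ _ => h0 _) _
  rw [Real.dist_eq, sub_zero, abs_of_nonneg h7]
  linarith

theorem init_union {I : ℕ → Finset ℕ} {w : ℕ → ℝ} (a b : ℕ → ℝ) :
    Init I w a ∪ Init I w b = Init I w (fun n => max (a n) (b n)) := by
  ext k
  constructor
  · rintro (⟨n, h1, h2⟩ | ⟨n, h1, h2⟩)
    · exact ⟨n, h1, h2.trans (le_max_left _ _)⟩
    · exact ⟨n, h1, h2.trans (le_max_right _ _)⟩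
  · rintro ⟨n, h1, h2⟩
    rcases le_max_iff.1 h2 with h3 | h3
    · exact Or.inl ⟨n, h1, h3⟩
    · exact Or.inr ⟨n, h1, h3⟩

theorem init_inter {I : ℕ → Finset ℕ} {w : ℕ → ℝ}
    (hd : ∀ m n, m ≠ n → Disjoint (I m) (I n)) (a b : ℕ → ℝ) :
    Init I w a ∩ Init I w b = Init I w (fun n => min (a n) (b n)) := by
  ext k
  constructor
  · rintro ⟨⟨n, h1, h2⟩, ⟨m, h3, h4⟩⟩
    have : m = n := by
      by_contra hne
      exact Finset.disjoint_left.1 (hd m n hne) h3 h1
    subst this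
    exact ⟨m, h1, le_min h2 h4⟩
  · rintro ⟨n, h1, h2⟩
    exact ⟨⟨n, h1, h2.trans (min_le_left _ _)⟩, ⟨n, h1, h2.trans (min_le_right _ _)⟩⟩

theorem negl_init_zero {I : ℕ → Finset ℕ} {w : ℕ → ℝ}
    (hd : ∀ m n, m ≠ n → Disjoint (I m) (I n)) (h0 : ∀ k, 0 ≤ w k) :
    Negl I w (Init I w fun _ => 0) := by
  classical
  have : (fun n => ∑ k ∈ I n, (Init I w fun _ => 0).indicator w k) = fun _ => (0 : ℝ) := by
    funext n
    refine Finset.sum_eq_zero fun k hk => ?_
    rw [Set.indicator_apply]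
    split_ifs with h
    · obtain ⟨m, hm1, hm2⟩ := h
      have h2 : w k ≤ ∑ j ∈ I m with j ≤ k, w j :=
        Finset.single_le_sum (f := w) (fun j _ => h0 j) (Finset.mem_filter.2 ⟨hm1, le_rfl⟩)
      exact le_antisymm (h2.trans hm2) (h0 k)
    · rfl
  rw [Negl, this]
  exact tendsto_const_nhds

theorem negl_compl_init_one {I : ℕ → Finset ℕ} {w : ℕ → ℝ} (h0 : ∀ k, 0 ≤ w k)
    (h1 : ∀ n, ∑ k ∈ I n, w k = 1) : Negl I w (Init I w fun _ => 1)ᶜ := by
  classical
  have : (fun n => ∑ k ∈ I n, ((Init I w fun _ => 1)ᶜ).indicator w k) = fun _ => (0 : ℝ) := by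
    funext n
    refine Finset.sum_eq_zero fun k hk => ?_
    rw [Set.indicator_apply, if_neg]
    intro h
    refine h ⟨n, hk, ?_⟩
    rw [← h1 n]
    exact Finset.sum_le_sum_of_subset_of_nonneg (Finset.filter_subset _ _) fun k _ _ => h0 k
  rw [Negl, this]
  exact tendsto_const_nhds

end Pool.Agent.Helper246.TDM
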