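import Pool.Agent.TH774.TD.Add
import Pool.Agent.Helper246.TDM.Mass

set_option autoImplicit false

/-!
Turing determinacy and finitely additive group valued measures on Boolean algebras.
-/

namespace Pool.Agent.Helper246.TDM

open Pool.Agent.Helper227 Pool.Agent.H685R3 Pool.Agent.TH774.TD
open Filter Topology unitInterval

theorem nice_comp {f g : ℝ → ℝ} (hf : Nice f) (hg : Nice g) : Nice fun x => f (g x) where
  nonneg := fun x hx => hf.nonneg _ (hg.nonneg x hx)
  le := fun x hx => (hf.le _ (hg.nonneg x hx)).trans (hg.le x hx)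
  mono := fun x y hx h => hf.mono _ _ (hg.nonneg x hx) (hg.mono x y hx h)
  lip := fun x y hx h => (hf.lip _ _ (hg.nonneg x hx) (hg.mono x y hx h)).trans (hg.lip x y hx h)
  top := hf.top.comp hg.top

theorem wv_int (k : ℤ) : wv k = 0 := by
  rw [wv, mul_comm, Real.sin_int_mul_pi]
  norm_num

/-- The wave with values in the unit interval. -/
noncomputable def wvI (x : ℝ) : unitInterval := ⟨wv x, wv_mem x⟩

theorem wvI_coe (x : ℝ) : (wvI x : ℝ) = wv x := rfl

/-- The two halves of the wave have disjoint supports. -/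
theorem wvI_disj (x : ℝ) : (wvI ((x + dl x) / 2) = 0 ∧ wvI ((x - dl x) / 2) = wvI x) ∨
    (wvI ((x - dl x) / 2) = 0 ∧ wvI ((x + dl x) / 2) = wvI x) := by
  have h1 := wv_split x
  set j := round (x / 2) with hj
  rcases le_total 0 (x - 2 * j) with h | h
  · right
    have h2 : (x - dl x) / 2 = ((j : ℤ) : ℝ) := by
      rw [dl, abs_of_nonneg (by rw [← hj]; exact h), ← hj]
      ring
    have h3 : wv ((x - dl x) / 2) = 0 := by rw [h2, wv_int]
    refine ⟨Subtype.ext h3, Subtype.ext ?_⟩
    change wv _ = wv _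
    rw [← h1, h3, add_zero]
  · left
    have h2 : (x + dl x) / 2 = ((j : ℤ) : ℝ) := by
      rw [dl, abs_of_nonpos (by rw [← hj]; exact h), ← hj]
      ring
    have h3 : wv ((x + dl x) / 2) = 0 := by rw [h2, wv_int]
    refine ⟨Subtype.ext h3, Subtype.ext ?_⟩
    change wv _ = wv _
    rw [← h1, h3, zero_add]

theorem bot_eq_zero' : (⊥ : unitInterval) = 0 := rfl

theorem top_eq_one' : (⊤ : unitInterval) = 1 := rfl

theorem wvI_sup (x : ℝ) : wvI ((x + dl x) / 2) ⊔ wvI ((x - dl x) / 2) = wvI x := by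
  rcases wvI_disj x with ⟨h, h'⟩ | ⟨h, h'⟩
  · rw [h, h', ← bot_eq_zero', bot_sup_eq]
  · rw [h, h', ← bot_eq_zero', sup_bot_eq]

theorem wvI_inf (x : ℝ) : wvI ((x + dl x) / 2) ⊓ wvI ((x - dl x) / 2) = 0 := by
  rcases wvI_disj x with ⟨h, h'⟩ | ⟨h, h'⟩
  · rw [h, h', ← bot_eq_zero', bot_inf_eq]
  · rw [h, h', ← bot_eq_zero', inf_bot_eq]

theorem symm_inf (x : ℝ) : σ (wvI ((x + dl x) / 2)) ⊓ σ (wvI ((x - dl x) / 2)) = σ (wvI x) := by
  rcases wvI_disj x with ⟨h, h'⟩ | ⟨h, h'⟩
  · rw [h, h', unitInterval.symm_zero, ← top_eq_one', top_inf_eq]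
  · rw [h, h', unitInterval.symm_zero, ← top_eq_one', inf_top_eq]

theorem symm_sup (x : ℝ) : σ (wvI ((x + dl x) / 2)) ⊔ σ (wvI ((x - dl x) / 2)) = 1 := by
  rcases wvI_disj x with ⟨h, h'⟩ | ⟨h, h'⟩
  · rw [h, h', unitInterval.symm_zero, ← top_eq_one', top_sup_eq]
  · rw [h, h', unitInterval.symm_zero, ← top_eq_one', sup_top_eq]

/-- The weights attached to a real, with values in the unit interval. -/
noncomputable def rhoI (x : ℕ → Bool) (n : ℕ) : unitInterval := wvI (sq x n)

theorem rhoI_coe (x : ℕ → Bool) (n : ℕ) : (rhoI x n : ℝ) = rho x n := rfl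

theorem measurable_rhoI : Measurable rhoI := by
  refine measurable_pi_lambda _ fun n => ?_
  exact Measurable.subtype_mk ((measurable_pi_apply n).comp measurable_rho)

section

variable {B : Type*} [BooleanAlgebra B] {H : Type*} [AddGroup H] {φ : B → H} {N : B → Prop}

theorem meas_split (hadd : ∀ a b, Disjoint a b → φ (a ⊔ b) = φ a + φ b) (a b : B) :
    φ a = φ (a ⊓ b) + φ (a \ b) := by
  rw [← hadd _ _ disjoint_inf_sdiff, sup_inf_sdiff]

/-- The measure does not see negligible elements. -/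
theorem meas_congr (hadd : ∀ a b, Disjoint a b → φ (a ⊔ b) = φ a + φ b)
    (hN : ∀ d, N d → φ d = 0) {a b : B} (h1 : N (a \ b)) (h2 : N (b \ a)) : φ a = φ b := by
  rw [meas_split hadd a b, meas_split hadd b a, hN _ h1, hN _ h2, inf_comm]

theorem meas_union (hadd : ∀ a b, Disjoint a b → φ (a ⊔ b) = φ a + φ b)
    (hN : ∀ d, N d → φ d = 0) {a b : B} (h1 : N (b ⊓ a)) : φ (a ⊔ b) = φ a + φ b := by
  rw [meas_split hadd b a, hN _ h1, zero_add, ← hadd _ _ disjoint_sdiff_self_right,
    sup_sdiff_self_right]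

end

theorem gen {B : Type*} [BooleanAlgebra B] (N : B → Prop) (hmono : ∀ a b, a ≤ b → N b → N a)
    (S : (ℕ → unitInterval) → B) (hsup : ∀ a b, S (a ⊔ b) = S a ⊔ S b)
    (hinf : ∀ a b, S (a ⊓ b) = S a ⊓ S b)
    (h0 : N (S ⊥)) (h1 : N (S ⊤)ᶜ)
    (hS : ∀ a b : ℕ → unitInterval, Tendsto (fun n => (a n : ℝ) - b n) atTop (𝓝 0) → N (S a \ S b))
    {H : Type*} [AddGroup H] (κ : H → ℕ → Bool) (hκ : Function.Injective κ) (φ : B → H)
    (hadd : ∀ a b, Disjoint a b → φ (a ⊔ b) = φ a + φ b) (hnull : ∀ d, N d → φ d = 0) :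
    (∀ v i, TuringInvariant {x | κ (φ (S (rhoI x) ⊓ v)) i = true}) ∧
      ((∀ v i, Determined {x | κ (φ (S (rhoI x) ⊓ v)) i = true}) → ∀ v, φ v = 0) := by
  have key : ∀ (v : B) (a b : ℕ → unitInterval), Tendsto (fun n => (a n : ℝ) - b n) atTop (𝓝 0) →
      φ (S a ⊓ v) = φ (S b ⊓ v) := by
    intro v a b hab
    have hba : Tendsto (fun n => (b n : ℝ) - a n) atTop (𝓝 0) := by
      have := hab.neg
      simp only [neg_zero] at this
      exact this.congr fun n => by ring
    have hle : ∀ p q : B, (p ⊓ v) \ (q ⊓ v) ≤ p \ q := by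
      intro p q
      rw [sdiff_inf, sdiff_eq_bot_iff.2 (inf_le_right : p ⊓ v ≤ v), sup_bot_eq]
      exact sdiff_le_sdiff_right inf_le_left
    exact meas_congr hadd hnull (hmono _ _ (hle _ _) (hS a b hab)) (hmono _ _ (hle _ _) (hS b a hba))
  have hinv : ∀ v x y, TLe x y → TLe y x → φ (S (rhoI x) ⊓ v) = φ (S (rhoI y) ⊓ v) :=
    fun v x y h2 h3 => key v _ _ (rho_close h2 h3)
  refine ⟨fun v i x y h2 h3 hx => ?_, fun hD v => ?_⟩
  · change κ _ i = true at hx
    change κ _ i = true
    rw [← hinv v x y h2 h3]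
    exact hx
  · obtain ⟨z, hz⟩ := const_on_cone (S := fun i => {x | κ (φ (S (rhoI x) ⊓ v)) i = true})
      (fun i x y h2 h3 hx => by
        change κ _ i = true at hx
        change κ _ i = true
        rw [← hinv v x y h2 h3]
        exact hx) (fun i => hD v i)
    have hconst : ∀ y, TLe z y → φ (S (rhoI y) ⊓ v) = φ (S (rhoI z) ⊓ v) := by
      intro y hy
      refine hκ (funext fun i => ?_)
      rcases hz i with h | h
      · have h1 : κ (φ (S (rhoI y) ⊓ v)) i = true := h y hy
        have h2 : κ (φ (S (rhoI z) ⊓ v)) i = true := h z (TLe.refl z)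
        rw [h1, h2]
      · have h1 : ¬ κ (φ (S (rhoI y) ⊓ v)) i = true := h y hy
        have h2 : ¬ κ (φ (S (rhoI z) ⊓ v)) i = true := h z (TLe.refl z)
        rw [Bool.not_eq_true] at h1 h2
        rw [h1, h2]
    set r := φ (S (rhoI z) ⊓ v) with hr
    obtain ⟨s, hs0, hs, hwalk⟩ := walk_sq z
    -- the value on all nice waves
    have hR : ∀ θ : ℝ → ℝ, Nice θ → φ (S (fun m => wvI (θ (s m))) ⊓ v) = r := by
      intro θ hθ
      obtain ⟨y, hy, e⟩ := hwalk θ hθ
      rw [← hconst y hy]
      refine key v _ _ ?_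
      have := (rho_close_of e).neg
      simp only [neg_zero] at this
      refine this.congr fun m => ?_
      rw [wvI_coe, rhoI_coe]
      unfold rho
      ring
    -- `r = r + r`
    have hr0 : r = 0 := by
      have e1 := hR _ nice_id
      have e2 := hR _ nice_two
      have e3 := hR _ nice_three
      have e4 : φ (S (fun m => wvI (s m)) ⊓ v) =
          φ (S (fun m => wvI ((s m + dl (s m)) / 2)) ⊓ v) +
          φ (S (fun m => wvI ((s m - dl (s m)) / 2)) ⊓ v) := by
        rw [← meas_union hadd hnull (hmono _ _ ?_ h0)]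
        · rw [← inf_sup_right, ← hsup]
          congr 3
          funext m
          exact (wvI_sup (s m)).symm
        · have h4 : S (fun m => wvI ((s m - dl (s m)) / 2)) ⊓
              S (fun m => wvI ((s m + dl (s m)) / 2)) = S ⊥ := by
            rw [← hinf]
            congr 1
            funext m
            rw [Pi.inf_apply, inf_comm]
            exact wvI_inf (s m)
          rw [← h4]
          exact inf_le_inf inf_le_left inf_le_left
      rw [e1, e2, e3] at e4
      exact left_eq_add.1 e4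
    -- the complementary value for the shifted waves
    have hC : ∀ θ : ℝ → ℝ, Nice θ → φ (v \ S (fun m => σ (wvI (θ (s m))))) = φ v := by
      intro θ hθ
      have e1 := hR _ (nice_comp (nice_shift (c := 1 / 2) (by norm_num)) hθ)
      have e2 : φ (S (fun m => σ (wvI (θ (s m)))) ⊓ v) = 0 := by
        rw [← hr0, ← e1]
        refine key v _ _ ?_
        refine tendsto_const_nhds.congr' ?_
        have h2 : Tendsto (fun m => θ (s m)) atTop atTop := hθ.top.comp hs
        filter_upwards [h2.eventually_ge_atTop (1 / 2)] with m hm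
        have := wv_shift hm
        rw [unitInterval.coe_symm_eq, wvI_coe, wvI_coe]
        linarith
      have e3 := meas_split hadd v (S fun m => σ (wvI (θ (s m))))
      rw [inf_comm, e2, zero_add] at e3
      exact e3.symm
    have e1 := hC _ nice_id
    have e2 := hC _ nice_two
    have e3 := hC _ nice_three
    have e4 : φ (v \ S (fun m => σ (wvI (s m)))) =
        φ (v \ S (fun m => σ (wvI ((s m + dl (s m)) / 2)))) +
        φ (v \ S (fun m => σ (wvI ((s m - dl (s m)) / 2)))) := by
      rw [← meas_union hadd hnull (hmono _ _ ?_ h1)]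
      · rw [← sdiff_inf, ← hinf]
        congr 3
        funext m
        exact (symm_inf (s m)).symm
      · have h4 : S (fun m => σ (wvI ((s m + dl (s m)) / 2))) ⊔
            S (fun m => σ (wvI ((s m - dl (s m)) / 2))) = S ⊤ := by
          rw [← hsup]
          congr 1
          funext m
          exact symm_sup (s m)
        rw [← h4, compl_sup, sdiff_eq, sdiff_eq]
        exact le_inf (inf_le_right.trans inf_le_right) (inf_le_left.trans inf_le_right)
    rw [e1, e2, e3] at e4
    exact left_eq_add.1 e4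

end Pool.Agent.Helper246.TDM
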