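import Pool.Agent.Helper246.TDM.Mass

set_option autoImplicit false

/-!
Dyadic blocks and the sets of asymptotic density zero.
-/

namespace Pool.Agent.Helper246.TDM

open Filter Topology

/-- The dyadic blocks. -/
def dyI (n : ℕ) : Finset ℕ := Finset.Ico (2 ^ n) (2 ^ (n + 1))

/-- The dyadic weights. -/
noncomputable def dyw (k : ℕ) : ℝ := ((2 : ℝ) ^ Nat.log 2 k)⁻¹

theorem dyw_nonneg (k : ℕ) : 0 ≤ dyw k := by
  unfold dyw
  positivity

theorem log_of_mem {n k : ℕ} (h : k ∈ dyI n) : Nat.log 2 k = n := by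
  obtain ⟨h1, h2⟩ := Finset.mem_Ico.1 h
  exact Nat.log_eq_of_pow_le_of_lt_pow h1 h2

theorem dyI_disj (m n : ℕ) (h : m ≠ n) : Disjoint (dyI m) (dyI n) := by
  rw [Finset.disjoint_left]
  intro k h1 h2
  exact h (by rw [← log_of_mem h1, log_of_mem h2])

theorem dyI_total (n : ℕ) : ∑ k ∈ dyI n, dyw k = 1 := by
  rw [Finset.sum_congr rfl fun k hk => by rw [dyw, log_of_mem hk], Finset.sum_const, dyI,
    Nat.card_Ico, nsmul_eq_mul, pow_succ]
  have : (2 : ℕ) ^ n * 2 - 2 ^ n = 2 ^ n := by omega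
  rw [this]
  push_cast
  exact mul_inv_cancel₀ (by positivity)

theorem dyw_tendsto : Tendsto dyw atTop (𝓝 0) := by
  have h1 : Tendsto (fun k => Nat.log 2 k) atTop atTop := by
    refine tendsto_atTop_mono (f := fun k => Nat.log 2 k) (fun k => le_rfl) ?_
    rw [tendsto_atTop]
    intro b
    filter_upwards [eventually_ge_atTop (2 ^ b)] with k hk
    exact (Nat.le_log_iff_pow_le (by norm_num) (by
      have : 0 < 2 ^ b := by positivity
      omega)).2 hk
  exact (tendsto_inv_atTop_zero.comp (tendsto_pow_atTop_atTop_of_one_lt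
    (by norm_num : (1 : ℝ) < 2))).comp h1

/-- Asymptotic density zero. -/
def DensityZero (D : Set ℕ) : Prop :=
  Tendsto (fun n : ℕ => ((D ∩ Set.Iio n).ncard : ℝ) / n) atTop (𝓝 0)

theorem densityZero_of_negl {D : Set ℕ} (h : Negl dyI dyw D) : DensityZero D := by
  classical
  have hcard : ∀ n, ((D ∩ Set.Iio n).ncard : ℝ) = (((Finset.range n).filter (· ∈ D)).card : ℝ) := by
    intro n
    have : D ∩ Set.Iio n = ↑((Finset.range n).filter (· ∈ D)) := by
      ext k
      simp [and_comm]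
    rw [this, Set.ncard_coe_finset]
  set c : ℕ → ℝ := fun n => (((Finset.range n).filter (· ∈ D)).card : ℝ) with hc
  have hmono : ∀ a b, a ≤ b → c a ≤ c b := by
    intro a b hab
    have : (Finset.range a).filter (· ∈ D) ⊆ (Finset.range b).filter (· ∈ D) :=
      Finset.filter_subset_filter _ (Finset.range_mono hab)
    exact (Nat.cast_le (α := ℝ)).2 (Finset.card_le_card this)
  have hblock : ∀ n, c (2 ^ (n + 1)) = c (2 ^ n) + 2 ^ n * ∑ k ∈ dyI n, D.indicator dyw k := by
    intro n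
    have e1 : ∑ k ∈ dyI n, D.indicator dyw k =
        (((dyI n).filter (· ∈ D)).card : ℝ) * ((2 : ℝ) ^ n)⁻¹ := by
      rw [indicator_sum, Finset.sum_congr rfl fun k hk => by
        rw [dyw, log_of_mem (Finset.mem_filter.1 hk).1], Finset.sum_const, nsmul_eq_mul]
    rw [e1]
    have e2 : (Finset.range (2 ^ (n + 1))).filter (· ∈ D) =
        (Finset.range (2 ^ n)).filter (· ∈ D) ∪ (dyI n).filter (· ∈ D) := by
      rw [← Finset.filter_union]
      congr 1
      ext k
      simp only [dyI, Finset.mem_range, Finset.mem_union, Finset.mem_Ico]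
      have : 2 ^ (n + 1) = 2 ^ n + 2 ^ n := by ring
      omega
    have e3 : Disjoint ((Finset.range (2 ^ n)).filter (· ∈ D)) ((dyI n).filter (· ∈ D)) := by
      rw [Finset.disjoint_left]
      intro k h1 h2
      have h3 := Finset.mem_range.1 (Finset.mem_filter.1 h1).1
      have h4 := (Finset.mem_Ico.1 (Finset.mem_filter.1 h2).1).1
      omega
    rw [hc]
    simp only
    rw [e2, Finset.card_union_of_disjoint e3]
    push_cast
    field_simp
  have hbound : ∀ ε : ℝ, 0 < ε → ∃ J : ℕ, ∀ m, J ≤ m → c (2 ^ m) ≤ 2 ^ J + ε * 2 ^ m := by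
    intro ε hε
    obtain ⟨J, hJ⟩ := (Metric.tendsto_atTop.1 h) ε hε
    refine ⟨J, fun m hm => ?_⟩
    induction m, hm using Nat.le_induction with
    | base =>
      have h1 : ((Finset.range (2 ^ J)).filter (· ∈ D)).card ≤ 2 ^ J := by
        refine (Finset.card_filter_le _ _).trans ?_
        rw [Finset.card_range]
      have h2 : c (2 ^ J) ≤ 2 ^ J := by
        calc c (2 ^ J) ≤ ((2 ^ J : ℕ) : ℝ) := (Nat.cast_le (α := ℝ)).2 h1
          _ = 2 ^ J := by push_cast; rfl
      have : 0 ≤ ε * 2 ^ J := by positivity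
      linarith
    | succ m hm ih =>
      have h1 := hJ m hm
      rw [Real.dist_eq, sub_zero] at h1
      have h2 := (le_abs_self _).trans h1.le
      have h3 : (2 : ℝ) ^ m * ∑ k ∈ dyI m, D.indicator dyw k ≤ 2 ^ m * ε :=
        mul_le_mul_of_nonneg_left h2 (by positivity)
      rw [hblock, pow_succ]
      nlinarith
  rw [DensityZero, Metric.tendsto_atTop]
  intro ε hε
  obtain ⟨J, hJ⟩ := hbound (ε / 4) (by positivity)
  obtain ⟨N, hN⟩ := exists_nat_gt ((2 : ℝ) ^ J / (ε / 4))
  refine ⟨max N (2 ^ J) + 1, fun n hn => ?_⟩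
  have hn1 : N ≤ n := by
    have := le_max_left N (2 ^ J)
    omega
  have hn2 : 2 ^ J ≤ n := by
    have := le_max_right N (2 ^ J)
    omega
  have hn0 : 0 < n := by omega
  have hnpos : (0 : ℝ) < n := by exact_mod_cast hn0
  set m := Nat.log 2 n + 1 with hm
  have h1 : n < 2 ^ m := Nat.lt_pow_succ_log_self (by norm_num) n
  have h2 : 2 ^ m ≤ 2 * n := by
    have := Nat.pow_log_le_self 2 hn0.ne'
    rw [hm, pow_succ]
    omega
  have h3 : J ≤ m := by
    have : J ≤ Nat.log 2 n := (Nat.le_log_iff_pow_le (by norm_num) hn0.ne').2 hn2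
    omega
  have h4 := hJ m h3
  have h5 := hmono n (2 ^ m) h1.le
  have h6 : ((2 : ℝ) ^ m) ≤ 2 * n := by exact_mod_cast h2
  have h7 : (2 : ℝ) ^ J < n * (ε / 4) := by
    rw [div_lt_iff₀ (by positivity)] at hN
    have h8 : (N : ℝ) ≤ n := by exact_mod_cast hn1
    have : (N : ℝ) * (ε / 4) ≤ n * (ε / 4) := mul_le_mul_of_nonneg_right h8 (by positivity)
    linarith
  have h8 : 0 ≤ c n := Nat.cast_nonneg _
  rw [hcard, Real.dist_eq, sub_zero, abs_of_nonneg (by positivity), div_lt_iff₀ hnpos]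
  have h9 : ε / 4 * 2 ^ m ≤ ε / 4 * (2 * n) := mul_le_mul_of_nonneg_left h6 (by positivity)
  have h10 : c n ≤ 2 ^ J + ε / 4 * 2 ^ m := h5.trans h4
  have h11 : (0 : ℝ) < ε * n := by positivity
  change c n < ε * n
  nlinarith

end Pool.Agent.Helper246.TDM
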